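import Pool.Agent.Helper96.GP.Basics

open Finset
open scoped Classical

namespace GPG

noncomputable section

variable {L : LS} {P : Par} {pb : ℝ}

/-- constant of the crude inclusion bound -/
def Cst (P : Par) (k : ℕ) : ℝ := (1 + P.e1) ^ (k ^ 2) * P.E4 ^ (k ^ 2 + k)

theorem Cst_nonneg (hG : Good L P pb) (k : ℕ) : 0 ≤ Cst P k := by
  have h1 := hG.e10
  have h2 := hG.E41
  unfold Cst
  positivity

/-- the statement of `PLX` for fixed `v` and `S0` -/
def PLXat (L : LS) (P : Par) (v : ℕ) : Prop :=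
  ∀ X : Finset ℕ, (∀ s ∈ X, s < v) →
    Ex L P v (fun C => if (∀ s ∈ X, s < tau L P v C ∧ s ∈ C) then (run L P C v).Z v else 0) ≤
      (1 + P.e1) ^ (X.card ^ 2) * P.E4 ^ (X.card ^ 2 + X.card) * ∏ s ∈ X, P.lam s

/-- `PLX` for sets given by injective families, without the hypothesis on `v` -/
theorem PLX_family (hG : Good L P pb) (v : ℕ) (hP : PLXat L P v) (k : ℕ) (x : Fin k → ℕ)
    (hx : Function.Injective x) :
    Ex L P v (fun C => if (∀ a, x a < tau L P v C ∧ x a ∈ C) then (run L P C v).Z v else 0) ≤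
      Cst P k * ∏ a, P.lam (x a) := by
  have h0 : ∀ C, (∀ a, x a < tau L P v C ∧ x a ∈ C) ↔
      ∀ s ∈ univ.image x, s < tau L P v C ∧ s ∈ C := by
    intro C
    simp
  by_cases hv : ∀ a, x a < v
  · have h1 := hP (univ.image x) (by simpa using hv)
    have h2 : (univ.image x).card = k := by
      rw [card_image_of_injective _ hx, card_univ, Fintype.card_fin]
    rw [h2, prod_image (fun a _ b _ h => hx h)] at h1
    simp only [h0]
    exact h1
  · push Not at hv
    obtain ⟨a, ha⟩ := hv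
    have h1 : Ex L P v (fun C => if (∀ a, x a < tau L P v C ∧ x a ∈ C) then
        (run L P C v).Z v else 0) = Ex L P v (fun _ => 0) := by
      refine Ex_congr v _ _ (fun C _ _ => ?_)
      rw [if_neg]
      intro h
      have h2 := (h a).1
      have h3 := tau_le (L := L) (P := P) v C
      omega
    have h2 : Ex L P v (fun _ => (0 : ℝ)) = 0 := by simp [Ex]
    rw [h1, h2]
    exact mul_nonneg (Cst_nonneg hG k) (prod_nonneg fun a _ => hG.lam0 _)

theorem pow_sub_le_descFactorial_real (n k h0 : ℕ) (hk : k ≤ h0) (h : h0 ≤ n) :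
    ((h0 : ℝ) - k) ^ k ≤ (n.descFactorial k : ℝ) := by
  have h1 : (h0 - k) ^ k ≤ n.descFactorial k := by
    refine le_trans (Nat.pow_le_pow_left ?_ k) (Nat.pow_sub_le_descFactorial n k)
    omega
  have h2 : ((h0 : ℝ) - k) = ((h0 - k : ℕ) : ℝ) := by
    rw [Nat.cast_sub hk]
  rw [h2]
  exact_mod_cast h1

/-- the pairs `(y, x)` with `y` in `i` and `x` on the line (not in `pre`) of `y` and `w` -/
def prD (L : LS) (i : Finset ℕ) (w : ℕ) : Finset (ℕ × ℕ) :=
  (i ×ˢ range L.N).filter (fun q => ∃ j ∈ L.ls, ¬ L.pre j ∧ q.1 ∈ j ∧ w ∈ j ∧ q.2 ∈ j)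

theorem sum_biUnion_le_real {s : Finset (Finset ℕ)} {f : ℕ → ℝ} (hf : ∀ x, 0 ≤ f x) :
    ∑ x ∈ s.biUnion id, f x ≤ ∑ j ∈ s, ∑ x ∈ j, f x := by
  induction s using Finset.induction_on with
  | empty => simp
  | insert a s ha ih =>
    rw [biUnion_insert, sum_insert ha]
    have h1 := sum_union_inter (s₁ := id a) (s₂ := s.biUnion id) (f := f)
    have h2 : 0 ≤ ∑ x ∈ id a ∩ s.biUnion id, f x := sum_nonneg fun x _ => hf x
    simp only [id] at h1 h2 ⊢
    linarith

theorem sum_prD_le (hG : Good L P pb) (i : Finset ℕ) (w : ℕ) :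
    ∑ q ∈ prD L i w, P.lam q.2 ≤ ∑ y ∈ i, L.r P.lam w y := by
  unfold prD
  rw [sum_filter, sum_product]
  refine sum_le_sum (fun y _ => ?_)
  unfold LS.r
  rw [← sum_filter]
  calc ∑ x ∈ (range L.N).filter (fun x => ∃ j ∈ L.ls, ¬ L.pre j ∧ y ∈ j ∧ w ∈ j ∧ x ∈ j),
        P.lam x
      ≤ ∑ x ∈ (L.ls.filter (fun j => ¬ L.pre j ∧ w ∈ j ∧ y ∈ j)).biUnion id, P.lam x := by
        refine sum_le_sum_of_subset_of_nonneg (fun x hx => ?_) (fun x _ _ => hG.lam0 x)
        rw [mem_filter] at hx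
        obtain ⟨j, h1, h2, h3, h4, h5⟩ := hx.2
        rw [mem_biUnion]
        exact ⟨j, mem_filter.2 ⟨h1, h2, h4, h3⟩, h5⟩
    _ ≤ ∑ j ∈ L.ls.filter (fun j => ¬ L.pre j ∧ w ∈ j ∧ y ∈ j), ∑ x ∈ j, P.lam x :=
        sum_biUnion_le_real (fun x => hG.lam0 x)

/-- block E4h, given `PLX` -/
theorem E4h_of_PLX (hG : Good L P pb) (v : ℕ) (hP : PLXat L P v) (i : Finset ℕ) (hi : i ∈ L.ls)
    (w : ℕ) (hwi : w ∉ i) (k h0 : ℕ) (hk : k ≤ h0) (R : ℝ)
    (hR : ∑ y ∈ i, L.r P.lam w y ≤ R) :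
    Ex L P v (fun C => if h0 ≤ hh L P v C i w then (run L P C v).Z v else 0) *
      ((h0 : ℝ) - k) ^ k ≤ Cst P k * R ^ k := by
  set D := prD L i w with hD
  set Q : Finset (Fin k → ℕ × ℕ) := (Fintype.piFinset (fun _ : Fin k => D)).filter
    (fun q => Function.Injective (fun a => (q a).2)) with hQ
  have hpt : ∀ C : Finset ℕ, C ⊆ range v →
      ((h0 : ℝ) - k) ^ k * (if h0 ≤ hh L P v C i w then (run L P C v).Z v else 0) ≤
        ∑ q ∈ Q, (if (∀ a, (q a).2 < tau L P v C ∧ (q a).2 ∈ C) then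
          (run L P C v).Z v else 0) := by
    intro C hC
    have hZ := Z_nonneg hG C v v
    by_cases hh0 : h0 ≤ hh L P v C i w
    · rw [if_pos hh0]
      set Y := i.filter (fun y => y < tau L P v C ∧ y < w ∧
        ∃ j ∈ L.ls, ¬ L.pre j ∧ y ∈ j ∧ w ∈ j ∧ ∃ x ∈ C, x < y ∧ x ∈ j) with hY
      have hYc : h0 ≤ Y.card := hh0
      have hch : ∀ y : Y, ∃ x, ∃ j ∈ L.ls, ¬ L.pre j ∧ y.1 ∈ j ∧ w ∈ j ∧ x ∈ C ∧ x < y.1 ∧
          x ∈ j := by
        rintro ⟨y, hy⟩
        rw [hY, mem_filter] at hy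
        obtain ⟨-, -, -, j, h1, h2, h3, h4, x, h5, h6, h7⟩ := hy
        exact ⟨x, j, h1, h2, h3, h4, h5, h6, h7⟩
      choose ξ hξ using hch
      have hYm : ∀ y : Y, y.1 ∈ i ∧ y.1 < tau L P v C ∧ y.1 < w := by
        rintro ⟨y, hy⟩
        rw [hY, mem_filter] at hy
        exact ⟨hy.1, hy.2.1, hy.2.2.1⟩
      have hinj : Function.Injective ξ := by
        intro y y' h
        obtain ⟨j, h1, h2, h3, h4, h5, h6, h7⟩ := hξ y
        obtain ⟨j', h1', h2', h3', h4', h5', h6', h7'⟩ := hξ y'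
        have hxw : ξ y ≠ w := by
          have := (hYm y).2.2
          omega
        have hjj : j = j' := L.uniq j h1 j' h1' (ξ y) w hxw h7 h4 (h ▸ h7') h4'
        by_contra hne
        have hne' : y.1 ≠ y'.1 := fun h8 => hne (Subtype.ext h8)
        have hji : j = i := L.uniq j h1 i hi y.1 y'.1 hne' h3 (hjj ▸ h3') (hYm y).1 (hYm y').1
        exact hwi (hji ▸ h4)
      have hcard : (Fintype.card (Fin k ↪ Y)) ≤
          (Q.filter (fun q => ∀ a, (q a).2 < tau L P v C ∧ (q a).2 ∈ C)).card := by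
        rw [← card_univ]
        refine card_le_card_of_injOn (fun e a => ((e a).1, ξ (e a))) ?_ ?_
        · intro e _
          rw [mem_coe, mem_filter, hQ, mem_filter, Fintype.mem_piFinset]
          refine ⟨⟨fun a => ?_, ?_⟩, fun a => ?_⟩
          · obtain ⟨j, h1, h2, h3, h4, h5, h6, h7⟩ := hξ (e a)
            rw [hD, prD, mem_filter, mem_product]
            exact ⟨⟨(hYm (e a)).1, L.sub j h1 h7⟩, j, h1, h2, h3, h4, h7⟩
          · intro a b hab
            exact e.injective (hinj hab)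
          · obtain ⟨j, h1, h2, h3, h4, h5, h6, h7⟩ := hξ (e a)
            exact ⟨h6.trans (hYm (e a)).2.1, h5⟩
        · intro e _ e' _ h
          ext a
          have := congrFun h a
          exact congrArg Prod.fst this
      rw [Fintype.card_embedding_eq, Fintype.card_fin, Fintype.card_coe] at hcard
      rw [← sum_filter, sum_const, nsmul_eq_mul]
      refine mul_le_mul_of_nonneg_right ?_ hZ
      refine (pow_sub_le_descFactorial_real Y.card k h0 hk hYc).trans ?_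
      exact_mod_cast hcard
    · rw [if_neg hh0, mul_zero]
      refine sum_nonneg fun q _ => ?_
      split_ifs
      · exact hZ
      · exact le_rfl
  have h1 : Ex L P v (fun C => if h0 ≤ hh L P v C i w then (run L P C v).Z v else 0) *
      ((h0 : ℝ) - k) ^ k ≤ ∑ q ∈ Q, Cst P k * ∏ a, P.lam (q a).2 := by
    rw [mul_comm, ← Ex_const_mul]
    refine (Ex_mono hG v _ _ (fun C hC _ => hpt C hC)).trans ?_
    rw [Ex_sum]
    refine sum_le_sum fun q hq => ?_
    rw [hQ, mem_filter] at hq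
    exact PLX_family hG v hP k (fun a => (q a).2) hq.2
  refine h1.trans ?_
  rw [← mul_sum]
  refine mul_le_mul_of_nonneg_left ?_ (Cst_nonneg hG k)
  have hl : ∀ x, 0 ≤ P.lam x := hG.lam0
  calc ∑ q ∈ Q, ∏ a, P.lam (q a).2
      ≤ ∑ q ∈ Fintype.piFinset (fun _ : Fin k => D), ∏ a, P.lam (q a).2 :=
        sum_le_sum_of_subset_of_nonneg (filter_subset _ _)
          (fun q _ _ => prod_nonneg fun a _ => hl _)
    _ = ∏ _a : Fin k, ∑ d ∈ D, P.lam d.2 :=
        (prod_univ_sum (fun _ : Fin k => D) (fun _ d => P.lam d.2)).symm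
    _ = (∑ d ∈ D, P.lam d.2) ^ k := by
        rw [prod_const, card_univ, Fintype.card_fin]
    _ ≤ R ^ k := pow_le_pow_left₀ (sum_nonneg fun d _ => hl _)
        ((sum_prD_le hG i w).trans hR) k

end

end GPG
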