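import Pool.Agent.Helper96.GP.NDefs
import Pool.Agent.Helper7.GPC.Div

/-!
# Block SL: sums of the inverses of primitive lengths along a line missing the base point
-/

open Finset
open scoped Classical

namespace GPG

noncomputable section

/-! ### integers in one residue class -/

theorem spaced_aux (P : ℕ) (hP : 1 ≤ P) (t : ℤ) :
    (P : ℝ) * max 1 (|((t / (P : ℤ) : ℤ) : ℝ)| - 1) ≤ max (P : ℝ) |(t : ℝ)| := by
  have hP0 : (0 : ℤ) < P := by exact_mod_cast hP
  have hP0' : (0 : ℝ) < P := by exact_mod_cast hP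
  set k : ℤ := t / (P : ℤ) with hk
  have h1 : (P : ℤ) * k ≤ t := Int.mul_ediv_self_le hP0.ne'
  have h2 : t < (P : ℤ) * k + P := by
    have := Int.lt_mul_ediv_self_add (x := t) hP0
    rw [← hk] at this
    exact this
  have h1' : (P : ℝ) * k ≤ t := by exact_mod_cast h1
  have h2' : (t : ℝ) < (P : ℝ) * k + P := by exact_mod_cast h2
  rw [mul_max_of_nonneg _ _ hP0'.le, mul_one]
  apply max_le_max le_rfl
  rcases le_or_gt 0 (k : ℝ) with h | h
  · rw [abs_of_nonneg h]
    have := le_abs_self (t : ℝ)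
    nlinarith
  · rw [abs_of_neg h]
    have := neg_le_abs (t : ℝ)
    nlinarith

theorem sum_max_inv (n : ℕ) (hn : 1 ≤ n) :
    ∑ k ∈ Finset.Icc (-(n : ℤ)) n, 1 / max 1 (|(k : ℝ)| - 1) ≤ 5 + 2 * Real.log n := by
  have hH : ∀ m : ℕ, ∑ k ∈ Finset.Icc (-((m + 1 : ℕ) : ℤ)) ((m + 1 : ℕ) : ℤ),
      1 / max 1 (|(k : ℝ)| - 1) ≤ 3 + 2 * (harmonic m : ℝ) := by
    intro m
    induction m with
    | zero =>
      have hset : Finset.Icc (-((0 + 1 : ℕ) : ℤ)) ((0 + 1 : ℕ) : ℤ) = {-1, 0, 1} := by decide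
      rw [hset]
      norm_num
    | succ m ih =>
      have hset : Finset.Icc (-((m + 1 + 1 : ℕ) : ℤ)) ((m + 1 + 1 : ℕ) : ℤ) =
          insert (-((m + 1 + 1 : ℕ) : ℤ)) (insert ((m + 1 + 1 : ℕ) : ℤ)
            (Finset.Icc (-((m + 1 : ℕ) : ℤ)) ((m + 1 : ℕ) : ℤ))) := by
        ext k
        simp only [Finset.mem_Icc, Finset.mem_insert]
        push_cast
        omega
      have hn1 : (-((m + 1 + 1 : ℕ) : ℤ)) ∉ insert ((m + 1 + 1 : ℕ) : ℤ)
          (Finset.Icc (-((m + 1 : ℕ) : ℤ)) ((m + 1 : ℕ) : ℤ)) := by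
        simp only [Finset.mem_Icc, Finset.mem_insert]
        push_cast
        omega
      have hn2 : ((m + 1 + 1 : ℕ) : ℤ) ∉
          (Finset.Icc (-((m + 1 : ℕ) : ℤ)) ((m + 1 : ℕ) : ℤ)) := by
        simp only [Finset.mem_Icc]
        push_cast
        omega
      rw [hset, Finset.sum_insert hn1, Finset.sum_insert hn2, harmonic_succ]
      have hv : 1 / max 1 (|(((m + 1 + 1 : ℕ) : ℤ) : ℝ)| - 1) = 1 / ((m : ℝ) + 1) := by
        have : |(((m + 1 + 1 : ℕ) : ℤ) : ℝ)| - 1 = (m : ℝ) + 1 := by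
          push_cast
          rw [abs_of_nonneg (by positivity)]
          ring
        rw [this, max_eq_right]
        have : (0 : ℝ) ≤ m := Nat.cast_nonneg m
        linarith
      have hv' : 1 / max 1 (|((-((m + 1 + 1 : ℕ) : ℤ) : ℤ) : ℝ)| - 1) = 1 / ((m : ℝ) + 1) := by
        rw [← hv]
        push_cast
        rw [abs_neg]
      rw [hv, hv']
      have h1 : (((harmonic m + (((m + 1 : ℕ) : ℚ))⁻¹ : ℚ)) : ℝ) =
          (harmonic m : ℝ) + 1 / ((m : ℝ) + 1) := by
        push_cast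
        rw [one_div]
      rw [h1]
      linarith
  obtain ⟨m, rfl⟩ : ∃ m, n = m + 1 := ⟨n - 1, by omega⟩
  refine (hH m).trans ?_
  have h1 := harmonic_le_one_add_log m
  have h2 : Real.log m ≤ Real.log ((m + 1 : ℕ) : ℝ) := by
    rcases Nat.eq_zero_or_pos m with h | h
    · subst h; simp
    · apply Real.log_le_log (by exact_mod_cast h)
      push_cast
      linarith
  linarith

theorem spaced_sum (P : ℕ) (hP : 1 ≤ P) (n : ℕ) (hn : 1 ≤ n) (S : Finset ℕ) (f : ℕ → ℤ)
    (hinj : ∀ a ∈ S, ∀ b ∈ S, f a = f b → a = b)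
    (hcong : ∀ a ∈ S, ∀ b ∈ S, (P : ℤ) ∣ f a - f b) (hb : ∀ a ∈ S, |f a| ≤ n) :
    ∑ a ∈ S, 1 / max (P : ℝ) |(f a : ℝ)| ≤ (5 + 2 * Real.log n) / P := by
  have hP0 : (0 : ℤ) < P := by exact_mod_cast hP
  have hP0' : (0 : ℝ) < P := by exact_mod_cast hP
  have hterm : ∀ a ∈ S, 1 / max (P : ℝ) |(f a : ℝ)| ≤
      1 / P * (1 / max 1 (|((f a / (P : ℤ) : ℤ) : ℝ)| - 1)) := by
    intro a ha
    rw [one_div_mul_one_div]
    apply one_div_le_one_div_of_le
    · exact mul_pos hP0' (lt_of_lt_of_le one_pos (le_max_left _ _))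
    · exact spaced_aux P hP (f a)
  refine (Finset.sum_le_sum hterm).trans ?_
  rw [← Finset.mul_sum]
  have hinj2 : Set.InjOn (fun a => f a / (P : ℤ)) (S : Set ℕ) := by
    intro a ha b hb' hab
    apply hinj a ha b hb'
    obtain ⟨c, hc⟩ := hcong a ha b hb'
    have h1 : f a = f b + P * c := by linarith
    have h2 : f a / (P : ℤ) = f b / P + c := by
      rw [h1, Int.add_mul_ediv_left _ _ hP0.ne']
    have h3 : f a / (P : ℤ) = f b / (P : ℤ) := hab
    have h4 : c = 0 := by omega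
    rw [h1, h4]; ring
  have h3 : ∑ a ∈ S, 1 / max 1 (|((f a / (P : ℤ) : ℤ) : ℝ)| - 1) =
      ∑ k ∈ S.image (fun a => f a / (P : ℤ)), 1 / max 1 (|(k : ℝ)| - 1) := by
    rw [Finset.sum_image hinj2]
  have h4 : S.image (fun a => f a / (P : ℤ)) ⊆ Finset.Icc (-(n : ℤ)) n := by
    intro k hk
    rw [Finset.mem_image] at hk
    obtain ⟨a, ha, rfl⟩ := hk
    have h5 := abs_le.mp (hb a ha)
    rw [Finset.mem_Icc]
    constructor
    · rw [Int.le_ediv_iff_mul_le hP0]
      have : (n : ℤ) ≤ n * P := by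
        have : (0 : ℤ) ≤ n := Int.natCast_nonneg n
        nlinarith
      linarith
    · have h6 : f a / (P : ℤ) ≤ (n : ℤ) / P := Int.ediv_le_ediv hP0 h5.2
      exact h6.trans (Int.ediv_le_self _ (Int.natCast_nonneg n))
  rw [h3]
  have h5 : ∑ k ∈ S.image (fun a => f a / (P : ℤ)), 1 / max 1 (|(k : ℝ)| - 1) ≤
      ∑ k ∈ Finset.Icc (-(n : ℤ)) n, 1 / max 1 (|(k : ℝ)| - 1) :=
    Finset.sum_le_sum_of_subset_of_nonneg h4 fun k _ _ => by positivity
  have h6 := sum_max_inv n hn
  calc 1 / (P : ℝ) * ∑ k ∈ S.image (fun a => f a / (P : ℤ)), 1 / max 1 (|(k : ℝ)| - 1)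
      ≤ 1 / (P : ℝ) * (5 + 2 * Real.log n) :=
        mul_le_mul_of_nonneg_left (h5.trans h6) (by positivity)
    _ = _ := by ring

theorem spaced_card (P : ℕ) (hP : 1 ≤ P) (S : Finset ℕ) (f : ℕ → ℤ)
    (hinj : ∀ a ∈ S, ∀ b ∈ S, f a = f b → a = b)
    (hcong : ∀ a ∈ S, ∀ b ∈ S, (P : ℤ) ∣ f a - f b) (P0 : ℝ) (hP1 : 0 ≤ P0)
    (hb : ∀ a ∈ S, |(f a : ℝ)| ≤ P0) :
    (S.card : ℝ) ≤ 2 + 4 * P0 / P := by
  have hP0 : (0 : ℤ) < P := by exact_mod_cast hP
  have hP0' : (0 : ℝ) < P := by exact_mod_cast hP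
  set m : ℕ := ⌊P0 / P⌋₊ with hm
  have hinj2 : Set.InjOn (fun a => f a / (P : ℤ)) (S : Set ℕ) := by
    intro a ha b hb' hab
    apply hinj a ha b hb'
    obtain ⟨c, hc⟩ := hcong a ha b hb'
    have h1 : f a = f b + P * c := by linarith
    have h2 : f a / (P : ℤ) = f b / P + c := by
      rw [h1, Int.add_mul_ediv_left _ _ hP0.ne']
    have h3 : f a / (P : ℤ) = f b / (P : ℤ) := hab
    have h4 : c = 0 := by omega
    rw [h1, h4]; ring
  have h4 : S.image (fun a => f a / (P : ℤ)) ⊆ Finset.Icc (-((m : ℤ) + 1)) m := by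
    intro k hk
    rw [Finset.mem_image] at hk
    obtain ⟨a, ha, rfl⟩ := hk
    have h5 := abs_le.mp (hb a ha)
    have h6 : P0 / P < m + 1 := Nat.lt_floor_add_one _
    rw [div_lt_iff₀ hP0'] at h6
    rw [Finset.mem_Icc]
    constructor
    · rw [Int.le_ediv_iff_mul_le hP0]
      have h7 : -(((m : ℝ) + 1) * P) ≤ (f a : ℝ) := by linarith [h5.1]
      have h8 : ((-((m : ℤ) + 1) * P : ℤ) : ℝ) ≤ (f a : ℝ) := by push_cast; linarith
      exact_mod_cast h8
    · have h7 : (f a : ℝ) < ((m : ℝ) + 1) * P := by linarith [h5.2]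
      have h8 : f a < ((m : ℤ) + 1) * P := by
        have : ((f a : ℤ) : ℝ) < ((((m : ℤ) + 1) * P : ℤ) : ℝ) := by push_cast; linarith
        exact_mod_cast this
      have h9 : f a / (P : ℤ) < (m : ℤ) + 1 := Int.ediv_lt_of_lt_mul hP0 h8
      omega
  have h5 : S.card ≤ 2 * m + 2 := by
    rw [← Finset.card_image_of_injOn hinj2]
    refine (Finset.card_le_card h4).trans ?_
    rw [Int.card_Icc]
    omega
  have h6 : (m : ℝ) ≤ P0 / P := Nat.floor_le (by positivity)
  have h7 : (S.card : ℝ) ≤ 2 * m + 2 := by exact_mod_cast h5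
  have h8 : 0 ≤ P0 / P := by positivity
  calc (S.card : ℝ) ≤ 2 * m + 2 := h7
    _ ≤ 2 + 4 * (P0 / P) := by linarith
    _ = _ := by ring

/-! ### lattice geometry -/

theorem param {u v X Y : ℤ} (h : u * Y = X * v) (hc : IsCoprime u v) (d : ℤ) (hX : d ∣ X)
    (hY : d ∣ Y) : ∃ s, X = s * u ∧ Y = s * v ∧ d ∣ s := by
  obtain ⟨a, b, hab⟩ := hc
  refine ⟨a * X + b * Y, ?_, ?_, ?_⟩
  · linear_combination (-X) * hab - b * h
  · linear_combination (-Y) * hab + a * h
  · exact dvd_add (Dvd.dvd.mul_left hX a) (Dvd.dvd.mul_left hY b)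

theorem DD_pos {n a b : ℕ} (h : a ≠ b) : 0 < DD n a b := by
  unfold DD
  by_contra hcon
  have h1 : (px n b - px n a).natAbs = 0 := by
    have := le_max_left (px n b - px n a).natAbs (py n b - py n a).natAbs; omega
  have h2 : (py n b - py n a).natAbs = 0 := by
    have := le_max_right (px n b - px n a).natAbs (py n b - py n a).natAbs; omega
  exact h (px_py_inj (n := n) (by omega) (by omega))

theorem gg_dvd_x (n a b : ℕ) : (gg n a b : ℤ) ∣ px n b - px n a := Int.gcd_dvd_left ..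
theorem gg_dvd_y (n a b : ℕ) : (gg n a b : ℤ) ∣ py n b - py n a := Int.gcd_dvd_right ..

theorem gg_dvd_DD (n a b : ℕ) : gg n a b ∣ DD n a b := by
  unfold DD
  rcases max_choice (px n b - px n a).natAbs (py n b - py n a).natAbs with h | h
  · rw [h]
    exact Int.natCast_dvd.mp (gg_dvd_x n a b)
  · rw [h]
    exact Int.natCast_dvd.mp (gg_dvd_y n a b)

theorem pd_mul_gg (n a b : ℕ) : pd n a b * gg n a b = DD n a b :=
  Nat.div_mul_cancel (gg_dvd_DD n a b)

theorem pd_pos {n a b : ℕ} (h : a ≠ b) : 0 < pd n a b := by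
  have h1 := pd_mul_gg n a b
  have h2 := DD_pos (n := n) h
  by_contra h3
  have : pd n a b = 0 := by omega
  rw [this, zero_mul] at h1
  omega

theorem px_bd {n t : ℕ} (hn : 0 < n) : 0 ≤ px n t ∧ px n t < n := by
  unfold px
  constructor
  · positivity
  · exact_mod_cast Nat.mod_lt _ hn

theorem py_bd {n t : ℕ} (ht : t < n ^ 2) : 0 ≤ py n t ∧ py n t < n := by
  unfold py
  constructor
  · positivity
  · have : t / n < n := by
      rw [pow_two] at ht
      exact Nat.div_lt_of_lt_mul ht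
    exact_mod_cast this

/-- The points `y` of the line `a b` with `gg n w y = d`: the (dominant) coordinate divided by `d`
is injective and its values are congruent modulo `pd n a b`. -/
theorem class_fun (n a b w d : ℕ) (hab : a ≠ b) (hd0 : 0 < d) (hn : 0 < n) (hw : w < n ^ 2)
    (S : Finset ℕ) (hS : ∀ y ∈ S, y ∈ gline n a b ∧ gg n w y = d) :
    ∃ f : ℕ → ℤ, (∀ y ∈ S, ∀ y' ∈ S, f y = f y' → y = y') ∧
      (∀ y ∈ S, ∀ y' ∈ S, (pd n a b : ℤ) ∣ f y - f y') ∧ (∀ y ∈ S, |f y| ≤ n) ∧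
      (∀ y ∈ S, |f y| ≤ pd n w y) := by
  have hg : 0 < gg n a b := gg_pos hab
  have hdz : (d : ℤ) ≠ 0 := by exact_mod_cast hd0.ne'
  obtain ⟨u, hu⟩ := gg_dvd_x n a b
  obtain ⟨v, hv⟩ := gg_dvd_y n a b
  have hgz : (gg n a b : ℤ) ≠ 0 := by exact_mod_cast hg.ne'
  have hcop : IsCoprime u v := by
    rw [Int.isCoprime_iff_gcd_eq_one]
    have h1 : Int.gcd (gg n a b * u) (gg n a b * v) = gg n a b * Int.gcd u v := by
      rw [Int.gcd_mul_left]; simp
    have h2 : Int.gcd (gg n a b * u) (gg n a b * v) = gg n a b := by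
      rw [← hu, ← hv]; rfl
    rw [h2] at h1
    exact Nat.eq_of_mul_eq_mul_left hg (by rw [← h1, mul_one])
  have hP : pd n a b = max u.natAbs v.natAbs := by
    unfold pd DD
    rw [hu, hv, Int.natAbs_mul, Int.natAbs_mul, Int.natAbs_natCast, Nat.mul_max_mul_left,
      Nat.mul_div_cancel_left _ hg]
  have hPpos := pd_pos (n := n) hab
  -- differences of two members
  have hpar : ∀ y ∈ S, ∀ y' ∈ S, ∃ s : ℤ, px n y - px n y' = (d * s) * u ∧
      py n y - py n y' = (d * s) * v := by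
    intro y hy y' hy'
    have h1 := (mem_gline.mp (hS y hy).1).2
    have h2 := (mem_gline.mp (hS y' hy').1).2
    have h3 : u * (py n y - py n y') = (px n y - px n y') * v := by
      have h4 : (gg n a b : ℤ) * (u * (py n y - py n y')) =
          (gg n a b : ℤ) * ((px n y - px n y') * v) := by
        unfold det3 at h1 h2
        rw [hu, hv] at h1 h2
        linear_combination h1 - h2
      exact mul_left_cancel₀ hgz h4
    have hx : (d : ℤ) ∣ px n y - px n y' := by
      have e1 := gg_dvd_x n w y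
      have e2 := gg_dvd_x n w y'
      rw [(hS y hy).2] at e1
      rw [(hS y' hy').2] at e2
      have := dvd_sub e1 e2
      have e3 : px n y - px n w - (px n y' - px n w) = px n y - px n y' := by ring
      rwa [e3] at this
    have hy1 : (d : ℤ) ∣ py n y - py n y' := by
      have e1 := gg_dvd_y n w y
      have e2 := gg_dvd_y n w y'
      rw [(hS y hy).2] at e1
      rw [(hS y' hy').2] at e2
      have := dvd_sub e1 e2
      have e3 : py n y - py n w - (py n y' - py n w) = py n y - py n y' := by ring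
      rwa [e3] at this
    obtain ⟨s, e1, e2, s', rfl⟩ := param h3 hcop d hx hy1
    exact ⟨s', e1, e2⟩
  have hpd : ∀ y ∈ S, pd n w y * d = DD n w y := by
    intro y hy
    have := pd_mul_gg n w y
    rwa [(hS y hy).2] at this
  have key : ∀ (c : ℕ → ℤ) (e : ℤ), (pd n a b : ℤ) = |e| → (∀ y ∈ S, (d : ℤ) ∣ c y) →
      (∀ y ∈ S, |c y| ≤ n) → (∀ y ∈ S, |c y| ≤ DD n w y) →
      (∀ y ∈ S, ∀ y' ∈ S, ∃ s : ℤ, c y - c y' = (d * s) * e ∧ (s = 0 → y = y')) →
      ∃ f : ℕ → ℤ, (∀ y ∈ S, ∀ y' ∈ S, f y = f y' → y = y') ∧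
      (∀ y ∈ S, ∀ y' ∈ S, (pd n a b : ℤ) ∣ f y - f y') ∧ (∀ y ∈ S, |f y| ≤ n) ∧
      (∀ y ∈ S, |f y| ≤ pd n w y) := by
    intro c e he hdvd hcn hcD hcc
    have he0 : e ≠ 0 := by
      intro h0
      rw [h0, abs_zero] at he
      omega
    have hdpos : (0 : ℤ) < d := by exact_mod_cast hd0
    have hdiv : ∀ y ∈ S, c y = d * (c y / d) := fun y hy => (Int.mul_ediv_cancel' (hdvd y hy)).symm
    have hdiff : ∀ y ∈ S, ∀ y' ∈ S, ∀ s : ℤ, c y - c y' = (d * s) * e →
        c y / d - c y' / d = s * e := by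
      intro y hy y' hy' s hs
      have h1 := hdiv y hy
      have h2 := hdiv y' hy'
      have h3 : (d : ℤ) * (c y / d - c y' / d) = d * (s * e) := by
        calc (d : ℤ) * (c y / d - c y' / d) = d * (c y / d) - d * (c y' / d) := by ring
          _ = c y - c y' := by rw [← h1, ← h2]
          _ = _ := by rw [hs]; ring
      exact mul_left_cancel₀ hdz h3
    refine ⟨fun y => c y / d, ?_, ?_, ?_, ?_⟩
    · intro y hy y' hy' hyy
      obtain ⟨s, hs, hs0⟩ := hcc y hy y' hy'
      have h1 := hdiff y hy y' hy' s hs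
      have h2 : s * e = 0 := by rw [← h1]; exact sub_eq_zero.mpr hyy
      exact hs0 ((mul_eq_zero.mp h2).resolve_right he0)
    · intro y hy y' hy'
      obtain ⟨s, hs, hs0⟩ := hcc y hy y' hy'
      have h1 := hdiff y hy y' hy' s hs
      show (pd n a b : ℤ) ∣ c y / d - c y' / d
      rw [h1, he]
      exact Dvd.dvd.mul_left ((abs_dvd _ _).mpr dvd_rfl) _
    · intro y hy
      have h1 := hdiv y hy
      have h2 := hcn y hy
      show |c y / d| ≤ (n : ℤ)
      rw [h1, abs_mul, abs_of_pos hdpos] at h2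
      have h3 : 0 ≤ |c y / d| := abs_nonneg _
      nlinarith
    · intro y hy
      have h1 := hdiv y hy
      have h2 := hcD y hy
      show |c y / d| ≤ (pd n w y : ℤ)
      rw [h1, abs_mul, abs_of_pos hdpos, ← hpd y hy] at h2
      push_cast at h2
      have h4 : (d : ℤ) * |c y / d| ≤ d * (pd n w y : ℤ) := by linarith
      exact le_of_mul_le_mul_left h4 hdpos
  rcases le_total u.natAbs v.natAbs with huv | huv
  · apply key (fun y => py n y - py n w) v
    · rw [hP, max_eq_right huv]; simp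
    · intro y hy
      have := gg_dvd_y n w y
      rwa [(hS y hy).2] at this
    · intro y hy
      have h1 := py_bd (mem_gline.mp (hS y hy).1).1
      have h2 := py_bd hw
      show |py n y - py n w| ≤ n
      rw [abs_le]; constructor <;> linarith
    · intro y hy
      show |py n y - py n w| ≤ DD n w y
      unfold DD
      rw [Int.abs_eq_natAbs]
      exact_mod_cast le_max_right _ _
    · intro y hy y' hy'
      obtain ⟨s, e1, e2⟩ := hpar y hy y' hy'
      refine ⟨s, ?_, ?_⟩
      · show py n y - py n w - (py n y' - py n w) = _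
        rw [← e2]; ring
      · rintro rfl
        exact px_py_inj (n := n) (by linarith) (by linarith)
  · apply key (fun y => px n y - px n w) u
    · rw [hP, max_eq_left huv]; simp
    · intro y hy
      have := gg_dvd_x n w y
      rwa [(hS y hy).2] at this
    · intro y hy
      have h1 := px_bd (n := n) (t := y) hn
      have h2 := px_bd (n := n) (t := w) hn
      show |px n y - px n w| ≤ n
      rw [abs_le]; constructor <;> linarith
    · intro y hy
      show |px n y - px n w| ≤ DD n w y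
      unfold DD
      rw [Int.abs_eq_natAbs]
      exact_mod_cast le_max_left _ _
    · intro y hy y' hy'
      obtain ⟨s, e1, e2⟩ := hpar y hy y' hy'
      refine ⟨s, ?_, ?_⟩
      · show px n y - px n w - (px n y' - px n w) = _
        rw [← e1]; ring
      · rintro rfl
        exact px_py_inj (n := n) (by linarith) (by linarith)

/-- basic sum: a line missing `w` -/
theorem sum_line (n a b w : ℕ) (hn : 2 ≤ n) (hab : a ≠ b) (ha : a < n ^ 2) (hb : b < n ^ 2)
    (hw : w < n ^ 2) (hd : det3 n a b w ≠ 0) :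
    ∃ D : ℕ, 1 ≤ D ∧ D ≤ 2 * n ^ 2 ∧
      (∑ y ∈ gline n a b, (1 : ℝ) / pd n w y ≤ (Nat.divisors D).card * (10 + 10 * Real.log n)) ∧
      (∑ y ∈ gline n a b, (1 : ℝ) / max (pd n a b : ℝ) (pd n w y) ≤
        (Nat.divisors D).card * (10 + 10 * Real.log n) / pd n a b) ∧
      (∀ P0 : ℝ, 1 ≤ P0 → (((gline n a b).filter (fun y => (pd n w y : ℝ) ≤ P0)).card : ℝ) ≤
        (Nat.divisors D).card * (2 + 4 * P0 / pd n a b)) := by
  have hlog : 0 ≤ Real.log n := Real.log_natCast_nonneg n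
  have hn0 : 0 < n := by omega
  have hPpos := pd_pos (n := n) hab
  have hPr : (0 : ℝ) < pd n a b := by exact_mod_cast hPpos
  refine ⟨(det3 n a b w).natAbs, ?_, ?_, ?_⟩
  · have := Int.natAbs_pos.mpr hd
    omega
  · have h1 := px_bd (n := n) (t := a) hn0
    have h2 := px_bd (n := n) (t := b) hn0
    have h3 := px_bd (n := n) (t := w) hn0
    have h4 := py_bd ha
    have h5 := py_bd hb
    have h6 := py_bd hw
    have h7 : |det3 n a b w| ≤ 2 * (n : ℤ) ^ 2 := by
      unfold det3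
      have e1 : |px n b - px n a| ≤ n := by rw [abs_le]; constructor <;> linarith
      have e2 : |py n w - py n a| ≤ n := by rw [abs_le]; constructor <;> linarith
      have e3 : |px n w - px n a| ≤ n := by rw [abs_le]; constructor <;> linarith
      have e4 : |py n b - py n a| ≤ n := by rw [abs_le]; constructor <;> linarith
      have e5 : |(px n b - px n a) * (py n w - py n a)| ≤ (n : ℤ) * n := by
        rw [abs_mul]
        exact mul_le_mul e1 e2 (abs_nonneg _) (by positivity)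
      have e6 : |(px n w - px n a) * (py n b - py n a)| ≤ (n : ℤ) * n := by
        rw [abs_mul]
        exact mul_le_mul e3 e4 (abs_nonneg _) (by positivity)
      calc _ ≤ |(px n b - px n a) * (py n w - py n a)| + |(px n w - px n a) * (py n b - py n a)| :=
            abs_sub _ _
        _ ≤ _ := by nlinarith
    rw [Int.abs_eq_natAbs] at h7
    exact_mod_cast h7
  set D := (det3 n a b w).natAbs with hD
  have hD0 : D ≠ 0 := by
    rw [hD]; exact Int.natAbs_ne_zero.mpr hd
  have hwy : ∀ y ∈ gline n a b, w ≠ y := by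
    intro y hy h
    subst h
    exact hd (mem_gline.mp hy).2
  have hmaps : ∀ y ∈ gline n a b, gg n w y ∈ Nat.divisors D := by
    intro y hy
    rw [Nat.mem_divisors]
    refine ⟨?_, hD0⟩
    rw [hD, ← Int.natCast_dvd]
    have h1 := (mem_gline.mp hy).2
    have e : det3 n a b w = (py n b - py n a) * (px n y - px n w) -
        (px n b - px n a) * (py n y - py n w) := by
      unfold det3 at h1 ⊢
      linear_combination h1
    rw [e]
    exact dvd_sub (Dvd.dvd.mul_left (gg_dvd_x n w y) _) (Dvd.dvd.mul_left (gg_dvd_y n w y) _)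
  have hclass : ∀ d ∈ Nat.divisors D, ∃ f : ℕ → ℤ,
      (∀ y ∈ (gline n a b).filter (fun y => gg n w y = d),
        ∀ y' ∈ (gline n a b).filter (fun y => gg n w y = d), f y = f y' → y = y') ∧
      (∀ y ∈ (gline n a b).filter (fun y => gg n w y = d),
        ∀ y' ∈ (gline n a b).filter (fun y => gg n w y = d), (pd n a b : ℤ) ∣ f y - f y') ∧
      (∀ y ∈ (gline n a b).filter (fun y => gg n w y = d), |f y| ≤ n) ∧
      (∀ y ∈ (gline n a b).filter (fun y => gg n w y = d), |f y| ≤ pd n w y) := by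
    intro d hd'
    exact class_fun n a b w d hab (Nat.pos_of_mem_divisors hd') hn0 hw _ fun y hy =>
      Finset.mem_filter.mp hy
  refine ⟨?_, ?_, ?_⟩
  · rw [← Finset.sum_fiberwise_of_maps_to hmaps, ← nsmul_eq_mul]
    refine Finset.sum_le_card_nsmul _ _ _ fun d hd' => ?_
    obtain ⟨f, f1, f2, f3, f4⟩ := hclass d hd'
    have h1 := spaced_sum 1 le_rfl n hn0 _ f f1 (fun _ _ _ _ => by simp) f3
    refine le_trans ?_ (h1.trans ?_)
    · refine Finset.sum_le_sum fun y hy => ?_
      have hy' := (Finset.mem_filter.mp hy).1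
      apply one_div_le_one_div_of_le
      · exact lt_of_lt_of_le (by norm_num) (le_max_left _ _)
      · apply max_le
        · exact_mod_cast pd_pos (hwy y hy')
        · exact_mod_cast f4 y hy
    · simp only [Nat.cast_one, div_one]
      linarith
  · rw [← Finset.sum_fiberwise_of_maps_to hmaps, mul_div_assoc, ← nsmul_eq_mul]
    refine Finset.sum_le_card_nsmul _ _ _ fun d hd' => ?_
    obtain ⟨f, f1, f2, f3, f4⟩ := hclass d hd'
    have h1 := spaced_sum (pd n a b) hPpos n hn0 _ f f1 f2 f3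
    refine le_trans ?_ (h1.trans ?_)
    · refine Finset.sum_le_sum fun y hy => ?_
      apply one_div_le_one_div_of_le
      · exact lt_of_lt_of_le hPr (le_max_left _ _)
      · apply max_le_max le_rfl
        exact_mod_cast f4 y hy
    · apply div_le_div_of_nonneg_right _ hPr.le
      linarith
  · intro P0 hP0
    have h0 : ((gline n a b).filter (fun y => (pd n w y : ℝ) ≤ P0)).card =
        ∑ d ∈ Nat.divisors D, (((gline n a b).filter (fun y => (pd n w y : ℝ) ≤ P0)).filter
          (fun y => gg n w y = d)).card :=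
      Finset.card_eq_sum_card_fiberwise fun y hy => hmaps y (Finset.mem_filter.mp hy).1
    rw [h0]
    push_cast
    rw [← nsmul_eq_mul]
    refine Finset.sum_le_card_nsmul _ _ _ fun d hd' => ?_
    obtain ⟨f, f1, f2, f3, f4⟩ := hclass d hd'
    have hsub : ∀ y ∈ (((gline n a b).filter (fun y => (pd n w y : ℝ) ≤ P0)).filter
          (fun y => gg n w y = d)), y ∈ (gline n a b).filter (fun y => gg n w y = d) := by
      intro y hy
      rw [Finset.mem_filter, Finset.mem_filter] at hy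
      exact Finset.mem_filter.mpr ⟨hy.1.1, hy.2⟩
    refine spaced_card (pd n a b) hPpos _ f (fun y hy y' hy' => f1 y (hsub y hy) y' (hsub y' hy'))
      (fun y hy y' hy' => f2 y (hsub y hy) y' (hsub y' hy')) P0 (by linarith) ?_
    intro y hy
    have h1 := f4 y (hsub y hy)
    rw [Finset.mem_filter, Finset.mem_filter] at hy
    have h2 : |(f y : ℝ)| ≤ pd n w y := by exact_mod_cast h1
    exact h2.trans hy.1.2

theorem NT2 (ε : ℝ) (hε : 0 < ε) : ∃ n0 : ℕ, ∀ n ≥ n0, ∀ a < n ^ 2, ∀ b < n ^ 2, ∀ w < n ^ 2,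
    a ≠ b → det3 n a b w ≠ 0 →
    ∑ y ∈ gline n a b, (1 : ℝ) / pd n w y ≤ (n : ℝ) ^ ε := by
  obtain ⟨C, hC1, hC⟩ := Pool.Agent.Helper7.GPC.card_divisors_le (show (0 : ℝ) < ε / 4 by positivity)
  have hlim : Filter.Tendsto (fun x : ℝ => (10 + 10 * Real.log x) / x ^ (ε / 2)) Filter.atTop
      (nhds 0) := by
    have h1 : Filter.Tendsto (fun x : ℝ => 10 / x ^ (ε / 2)) Filter.atTop (nhds 0) :=
      Filter.Tendsto.div_atTop tendsto_const_nhds (tendsto_rpow_atTop (by positivity))
    have h2 : Filter.Tendsto (fun x : ℝ => Real.log x / x ^ (ε / 2)) Filter.atTop (nhds 0) :=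
      (isLittleO_log_rpow_atTop (by positivity)).tendsto_div_nhds_zero
    have h3 := h1.add (h2.const_mul 10)
    simp only [mul_zero, add_zero] at h3
    refine h3.congr fun x => ?_
    ring
  have hC0 : (0 : ℝ) < C * 2 ^ (ε / 4) := by positivity
  have hev := (hlim.eventually_lt_const (show (0 : ℝ) < 1 / (C * 2 ^ (ε / 4)) by positivity))
  rw [Filter.eventually_atTop] at hev
  obtain ⟨x0, hx0⟩ := hev
  refine ⟨max 2 ⌈x0⌉₊, fun n hn a ha b hb w hw hab hd => ?_⟩
  have hn2 : 2 ≤ n := (le_max_left _ _).trans hn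
  have hnx : x0 ≤ n := (Nat.le_ceil x0).trans (by exact_mod_cast (le_max_right _ _).trans hn)
  obtain ⟨D, hD1, hD2, hsum, _, _⟩ := sum_line n a b w hn2 hab ha hb hw hd
  have hn0 : (0 : ℝ) < n := by positivity
  have hlog : 0 ≤ Real.log n := Real.log_natCast_nonneg n
  refine hsum.trans ?_
  have h1 : ((Nat.divisors D).card : ℝ) ≤ C * 2 ^ (ε / 4) * (n : ℝ) ^ (ε / 2) := by
    refine (hC D (by omega)).trans ?_
    rw [mul_assoc]
    refine mul_le_mul_of_nonneg_left ?_ (by linarith)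
    have h2 : (D : ℝ) ^ (ε / 4) ≤ (2 * (n : ℝ) ^ 2) ^ (ε / 4) := by
      apply Real.rpow_le_rpow (by positivity) _ (by positivity)
      exact_mod_cast hD2
    refine h2.trans (le_of_eq ?_)
    rw [Real.mul_rpow (by norm_num) (by positivity), ← Real.rpow_natCast, ← Real.rpow_mul hn0.le]
    congr 2
    push_cast
    ring
  have h3 := hx0 n hnx
  rw [div_lt_iff₀ (by positivity)] at h3
  calc ((Nat.divisors D).card : ℝ) * (10 + 10 * Real.log n)
      ≤ (C * 2 ^ (ε / 4) * (n : ℝ) ^ (ε / 2)) *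
        (1 / (C * 2 ^ (ε / 4)) * (n : ℝ) ^ (ε / 2)) :=
        mul_le_mul h1 h3.le (by positivity) (by positivity)
    _ = (n : ℝ) ^ (ε / 2) * (n : ℝ) ^ (ε / 2) := by field_simp
    _ = (n : ℝ) ^ ε := by
        rw [← Real.rpow_add hn0]
        congr 1
        ring

end

end GPG
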